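import Pool.Agent.W307.RT.Stm

/-! Subtask TRK-AVH (owner helper307): the average of a multiplicative function close to one. -/

set_option autoImplicit false

namespace Pool.Agent.W216.RT.AVH

open Finset

theorem card_le (X d : ℕ) :
    (((Icc 1 X).filter (fun v => d ∣ v)).card : ℝ) ≤ (X : ℝ) / d := by
  have h1 : ((Icc 1 X).filter (fun v => d ∣ v)).card = X / d := by
    have h2 := Nat.Ioc_filter_dvd_card_eq_div X d
    have h3 : Icc 1 X = Ioc 0 X := by
      ext v
      simp only [mem_Icc, mem_Ioc]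
      omega
    rw [h3]
    exact h2
  rw [h1]
  exact Nat.cast_div_le

theorem avh : Pool.Agent.W307.RT.AVH := by
  intro c z hz
  have hsq : Summable (fun n : ℕ => 1 / (n : ℝ) ^ 2) := Real.summable_one_div_nat_pow.2 (by norm_num)
  set S2 : ℝ := ∑' n : ℕ, 1 / (n : ℝ) ^ 2 with hS2
  refine ⟨Real.exp (2 * c * S2), (Real.exp_pos _).le, ?_⟩
  intro X
  set Pr : Finset ℕ := (Icc 1 X).filter (fun p => p.Prime ∧ z < p) with hPr
  set g : ℕ → ℝ := fun p => (c : ℝ) / ((p : ℝ) - c) with hg
  have hpc : ∀ p ∈ Pr, (p : ℝ) / 2 ≤ (p : ℝ) - c ∧ 0 < (p : ℝ) := by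
    intro p hp
    rw [hPr, mem_filter] at hp
    have h1 : 2 * c + 2 < p := lt_of_le_of_lt hz hp.2.2
    have h2 : 2 * (c : ℝ) + 2 < p := by exact_mod_cast h1
    have h3 : (0 : ℝ) ≤ c := Nat.cast_nonneg c
    exact ⟨by linarith, by linarith⟩
  have hg0 : ∀ p ∈ Pr, 0 ≤ g p := by
    intro p hp
    have := hpc p hp
    exact div_nonneg (Nat.cast_nonneg c) (by linarith)
  -- expansion
  have hexp : ∀ v ∈ Icc 1 X, ∏ p ∈ v.primeFactors.filter (fun p => z < p),
      (p : ℝ) / ((p : ℝ) - c) = ∑ T ∈ Pr.powerset,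
        if T ⊆ v.primeFactors.filter (fun p => z < p) then ∏ p ∈ T, g p else 0 := by
    intro v hv
    rw [mem_Icc] at hv
    have hsub : v.primeFactors.filter (fun p => z < p) ⊆ Pr := by
      intro p hp
      rw [mem_filter, Nat.mem_primeFactors] at hp
      rw [hPr, mem_filter, mem_Icc]
      have := Nat.le_of_dvd (by omega) hp.1.2.1
      exact ⟨⟨hp.1.1.one_le, by omega⟩, hp.1.1, hp.2⟩
    have h1 : ∏ p ∈ v.primeFactors.filter (fun p => z < p), (p : ℝ) / ((p : ℝ) - c)
        = ∏ p ∈ v.primeFactors.filter (fun p => z < p), (1 + g p) := by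
      apply prod_congr rfl
      intro p hp
      have h2 := hpc p (hsub hp)
      have h3 : (p : ℝ) - c ≠ 0 := by
        have := h2.1
        have := h2.2
        linarith
      simp only [hg]
      field_simp
      ring
    rw [h1, prod_one_add, ← sum_filter]
    apply sum_congr _ (fun _ _ => rfl)
    ext T
    simp only [mem_powerset, mem_filter]
    exact ⟨fun h => ⟨h.trans hsub, h⟩, fun h => h.2⟩
  rw [sum_congr rfl hexp, sum_comm]
  -- each subset
  have hT : ∀ T ∈ Pr.powerset, (∑ v ∈ Icc 1 X,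
      if T ⊆ v.primeFactors.filter (fun p => z < p) then ∏ p ∈ T, g p else 0)
      ≤ X * ∏ p ∈ T, (g p / p) := by
    intro T hT
    rw [mem_powerset] at hT
    rw [← sum_filter, sum_const, nsmul_eq_mul]
    have hG0 : 0 ≤ ∏ p ∈ T, g p := prod_nonneg fun p hp => hg0 p (hT hp)
    have hne : ∏ p ∈ T, p ≠ 0 := by
      apply prod_ne_zero_iff.2
      intro p hp
      have := (mem_filter.1 (hT hp)).2.1
      exact this.ne_zero
    have hcard : (((Icc 1 X).filter
        (fun v => T ⊆ v.primeFactors.filter (fun p => z < p))).card : ℝ)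
        ≤ (X : ℝ) / ((∏ p ∈ T, p : ℕ) : ℝ) := by
      refine le_trans ?_ (card_le X _)
      norm_cast
      apply card_le_card
      intro v hv
      rw [mem_filter] at hv ⊢
      refine ⟨hv.1, ?_⟩
      apply prod_primes_dvd
      · intro p hp
        exact ((mem_filter.1 (hT hp)).2.1).prime
      · intro p hp
        have := hv.2 hp
        rw [mem_filter, Nat.mem_primeFactors] at this
        exact this.1.2.1
    calc (((Icc 1 X).filter
        (fun v => T ⊆ v.primeFactors.filter (fun p => z < p))).card : ℝ) * ∏ p ∈ T, g p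
        ≤ ((X : ℝ) / ((∏ p ∈ T, p : ℕ) : ℝ)) * ∏ p ∈ T, g p :=
          mul_le_mul_of_nonneg_right hcard hG0
      _ = X * ∏ p ∈ T, (g p / p) := by
          have e : ∏ p ∈ T, (g p / (p : ℝ)) = (∏ p ∈ T, g p) / ∏ p ∈ T, (p : ℝ) :=
            prod_div_distrib g (fun p : ℕ => (p : ℝ))
          rw [e]
          push_cast
          ring
  refine (sum_le_sum hT).trans ?_
  rw [← mul_sum, mul_comm]
  apply mul_le_mul_of_nonneg_right _ (Nat.cast_nonneg X)
  rw [← prod_one_add]
  have hfac : ∀ p ∈ Pr, 1 + g p / p ≤ Real.exp (2 * c * (1 / (p : ℝ) ^ 2)) := by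
    intro p hp
    have h2 := hpc p hp
    have h3 : g p / p ≤ 2 * c * (1 / (p : ℝ) ^ 2) := by
      simp only [hg]
      have h4 : (c : ℝ) / ((p : ℝ) - c) ≤ c / ((p : ℝ) / 2) := by
        apply div_le_div_of_nonneg_left (Nat.cast_nonneg c) (by linarith [h2.2]) h2.1
      calc (c : ℝ) / ((p : ℝ) - c) / p ≤ c / ((p : ℝ) / 2) / p :=
            div_le_div_of_nonneg_right h4 h2.2.le
        _ = 2 * c * (1 / (p : ℝ) ^ 2) := by
            have := h2.2.ne'
            field_simp
    have h4 := Real.add_one_le_exp (2 * c * (1 / (p : ℝ) ^ 2))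
    linarith
  calc ∏ p ∈ Pr, (1 + g p / p) ≤ ∏ p ∈ Pr, Real.exp (2 * c * (1 / (p : ℝ) ^ 2)) := by
        apply prod_le_prod
        · intro p hp
          have := hg0 p hp
          have := (hpc p hp).2
          positivity
        · exact hfac
    _ = Real.exp (∑ p ∈ Pr, 2 * c * (1 / (p : ℝ) ^ 2)) := (Real.exp_sum _ _).symm
    _ ≤ Real.exp (2 * c * S2) := by
        apply Real.exp_le_exp.2
        rw [← mul_sum]
        apply mul_le_mul_of_nonneg_left _ (by positivity)
        exact hsq.sum_le_tsum Pr (fun n _ => by positivity)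

end Pool.Agent.W216.RT.AVH
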