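import Pool.Agent.W307.RT.Stm
import Pool.Agent.W586.RK.UB

/-! Subtask TRK-UB4 (owner helper307): the sum of chi_4(p)/p is bounded above. -/

set_option autoImplicit false

namespace Pool.Agent.W216.RT.UB4

open Finset Filter Topology
open Pool.Agent.W262.RK Pool.Agent.W586.RK.UB

/-- the character -/
noncomputable def fx : ℕ →*₀ ℝ where
  toFun n := x4 true n
  map_zero' := by simp [x4]
  map_one' := by simp [x4]
  map_mul' m n := by
    unfold x4
    rw [if_pos rfl, if_pos rfl, if_pos rfl, Nat.cast_mul, map_mul, Int.cast_mul]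

theorem fx_apply (n : ℕ) : fx n = x4 true n := rfl

theorem fx_abs (n : ℕ) : |fx n| ≤ 1 := x4_abs true n

theorem fx_per : Function.Periodic fx 4 := by
  intro n
  rw [fx_apply, fx_apply]
  unfold x4
  have : ((n + 4 : ℕ) : ZMod 4) = (n : ZMod 4) := by
    push_cast
    rw [show (4 : ZMod 4) = 0 from rfl]
    ring
  rw [this]

theorem fx_sum : ∑ n ∈ range 4, fx n = 0 := by
  have h : ∀ n, fx n = ((ZMod.χ₄ (n : ZMod 4) : ℤ) : ℝ) := fun n => by
    rw [fx_apply]
    unfold x4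
    rw [if_pos rfl]
  simp only [h]
  have : ∑ n ∈ range 4, (ZMod.χ₄ (n : ZMod 4) : ℤ) = 0 := by decide
  exact_mod_cast this

theorem main : ∃ C : ℝ, ∀ y : ℕ, 3 ≤ y → ∑ p ∈ (Icc 1 y).filter Nat.Prime, fx p / (p : ℝ) ≤ C := by
  obtain ⟨C1, hC1⟩ := Pool.Agent.Helper256.KM.mertens_log
  obtain ⟨C2, hC2⟩ := Pool.Agent.Helper256.KM.mertens_inv
  have hC10 : 0 ≤ C1 := (abs_nonneg _).trans (hC1 1 le_rfl)
  set K : ℝ := Real.log ((4 : ℕ) : ℝ) + 2 with hK
  have hlog4 : 0 ≤ Real.log ((4 : ℕ) : ℝ) := Real.log_nonneg (by norm_num)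
  have hK0 : 0 < K := by linarith
  have hl3 : 1 ≤ Real.log 3 := by
    rw [Real.le_log_iff_exp_le (by norm_num)]
    linarith [Real.exp_one_lt_d9]
  refine ⟨Real.log 2 + Real.log K + C2 + 2 + 2 * C1, ?_⟩
  intro y hy3
  have hLy : 1 ≤ Real.log y :=
    hl3.trans (Real.log_le_log (by norm_num) (by exact_mod_cast hy3))
  set s : ℝ := 1 / Real.log y with hs
  have hLy0 : 0 < Real.log y := by linarith
  have hs0 : 0 < s := by positivity
  have hs1 : s ≤ 1 := by rw [hs, div_le_one hLy0]; exact hLy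
  set T : Finset Nat.Primes := Finset.subtype Nat.Prime (Icc 1 y) with hT
  have hconv : ∀ g : ℕ → ℝ, ∑ p ∈ T, g (p : ℕ) = ∑ p ∈ (Icc 1 y).filter Nat.Prime, g p := by
    intro g
    exact Finset.sum_subtype_eq_sum_filter (s := Icc 1 y) (p := Nat.Prime) g
  obtain ⟨hsum, hEL⟩ := euler_lower fx fx_abs s hs0 hs1 T
  have hLb := L_bound (by norm_num : 1 ≤ 4) fx_abs fx_per fx_sum s hs0 hsum
  rw [← hK] at hLb
  have h2s : 2 / s = 2 * Real.log y := by
    rw [hs]; field_simp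
  rw [h2s] at hEL
  have h1 : ∑ p ∈ T, (1 + fx (p : ℕ)) * ((p : ℕ) : ℝ) ^ (-(1 + s)) ≤
      Real.log 2 + Real.log (Real.log y) + Real.log K := by
    have h2 := hEL.trans (mul_le_mul_of_nonneg_left hLb (by positivity))
    rw [← Real.log_mul (by positivity) (by linarith),
      ← Real.log_mul (by positivity) hK0.ne']
    rw [Real.le_log_iff_exp_le (by positivity)]
    exact h2
  have h3 : ∑ p ∈ T, (1 + fx (p : ℕ)) * ((p : ℕ) : ℝ) ^ (-(1 + s)) ≥
      ∑ p ∈ (Icc 1 y).filter Nat.Prime, ((1 : ℝ) / p + fx p / p - 2 * s * (Real.log p / p)) := by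
    rw [ge_iff_le, ← hconv (fun p => (1 : ℝ) / p + fx p / p - 2 * s * (Real.log p / p))]
    refine sum_le_sum fun p _ => ?_
    have hp1 : (1 : ℝ) < ((p : ℕ) : ℝ) := by exact_mod_cast p.2.one_lt
    have hp0 : (0 : ℝ) < ((p : ℕ) : ℝ) := by linarith
    have hlp : 0 < Real.log ((p : ℕ) : ℝ) := Real.log_pos hp1
    have h4 : ((p : ℕ) : ℝ) ^ (-(1 + s)) = ((p : ℕ) : ℝ) ^ (-s) / (p : ℕ) := by
      rw [show -(1 + s) = -s - 1 by ring, Real.rpow_sub hp0, Real.rpow_one]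
    have h5 : 1 - s * Real.log ((p : ℕ) : ℝ) ≤ ((p : ℕ) : ℝ) ^ (-s) := by
      rw [Real.rpow_def_of_pos hp0]
      have := Real.add_one_le_exp (Real.log ((p : ℕ) : ℝ) * -s)
      linarith
    have h6 := abs_le.1 (fx_abs p)
    have h7 : (1 + fx (p : ℕ)) * (1 - s * Real.log ((p : ℕ) : ℝ)) ≤
        (1 + fx (p : ℕ)) * ((p : ℕ) : ℝ) ^ (-s) := mul_le_mul_of_nonneg_left h5 (by linarith)
    have h8 : (1 + fx (p : ℕ)) * (s * Real.log ((p : ℕ) : ℝ)) ≤ 2 * (s * Real.log ((p : ℕ) : ℝ)) :=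
      mul_le_mul_of_nonneg_right (by linarith) (by positivity)
    have h9 : (1 + fx (p : ℕ) - 2 * (s * Real.log ((p : ℕ) : ℝ))) ≤
        (1 + fx (p : ℕ)) * ((p : ℕ) : ℝ) ^ (-s) := by linarith
    calc (1 : ℝ) / (p : ℕ) + fx p / (p : ℕ) - 2 * s * (Real.log (p : ℕ) / (p : ℕ))
        = (1 + fx (p : ℕ) - 2 * (s * Real.log ((p : ℕ) : ℝ))) / (p : ℕ) := by ring
      _ ≤ ((1 + fx (p : ℕ)) * ((p : ℕ) : ℝ) ^ (-s)) / (p : ℕ) :=
          div_le_div_of_nonneg_right h9 hp0.le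
      _ = _ := by rw [h4]; ring
  rw [sum_sub_distrib, sum_add_distrib, ← mul_sum] at h3
  have h10 := (abs_le.1 (hC2 y hy3)).1
  have h11 := (abs_le.1 (hC1 y (by omega))).2
  have h12 : 2 * s * ∑ p ∈ (Icc 1 y).filter Nat.Prime, Real.log p / p ≤ 2 + 2 * C1 := by
    have h13 : 2 * s * ∑ p ∈ (Icc 1 y).filter Nat.Prime, Real.log p / p ≤
        2 * s * (Real.log y + C1) := mul_le_mul_of_nonneg_left (by linarith) (by positivity)
    have h14 : 2 * s * (Real.log y + C1) = 2 + 2 * (s * C1) := by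
      rw [hs]; field_simp
    have h15 : s * C1 ≤ 1 * C1 := mul_le_mul_of_nonneg_right hs1 hC10
    linarith
  linarith

theorem ub4 : Pool.Agent.W307.RT.UB4 := by
  intro z
  obtain ⟨C, hC⟩ := main
  refine ⟨|C| + z + 3, ?_⟩
  intro y hzy
  have hb : ∀ p : ℕ, 1 ≤ p → |fx p / (p : ℝ)| ≤ 1 := by
    intro p hp
    have hp0 : (1 : ℝ) ≤ p := by exact_mod_cast hp
    rw [abs_div, abs_of_pos (by linarith : (0 : ℝ) < p), div_le_one (by linarith)]
    exact (fx_abs p).trans hp0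
  rcases Nat.lt_or_ge y 3 with hy | hy
  · have h1 : ∑ p ∈ PS z y, x4 true p / (p : ℝ) ≤ ∑ p ∈ PS z y, (1 : ℝ) := by
      apply sum_le_sum
      intro p hp
      simp only [PS, mem_filter, mem_Ioc] at hp
      exact (abs_le.1 (hb p (by omega))).2
    have h2 : (PS z y).card ≤ y := by
      unfold PS
      refine (card_filter_le _ _).trans ?_
      simp
    have h3 : ((PS z y).card : ℝ) ≤ 2 := by
      have : (PS z y).card ≤ 2 := by omega
      exact_mod_cast this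
    simp only [sum_const, nsmul_eq_mul, mul_one] at h1
    have := abs_nonneg C
    have : (0 : ℝ) ≤ z := Nat.cast_nonneg z
    linarith
  · have hmain := hC y hy
    have hsplit : ∑ p ∈ (Icc 1 y).filter Nat.Prime, fx p / (p : ℝ) =
        ∑ p ∈ (Icc 1 z).filter Nat.Prime, fx p / (p : ℝ) + ∑ p ∈ PS z y, fx p / (p : ℝ) := by
      rw [← sum_union]
      · refine sum_congr ?_ fun _ _ => rfl
        ext p
        simp only [PS, mem_union, mem_filter, mem_Icc, mem_Ioc]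
        constructor
        · rintro ⟨⟨h1, h2⟩, h3⟩
          rcases Nat.lt_or_ge z p with h4 | h4
          · right; exact ⟨⟨h4, h2⟩, h3⟩
          · left; exact ⟨⟨h1, h4⟩, h3⟩
        · rintro (⟨⟨h1, h2⟩, h3⟩ | ⟨⟨h1, h2⟩, h3⟩)
          · exact ⟨⟨h1, by omega⟩, h3⟩
          · exact ⟨⟨by omega, h2⟩, h3⟩
      · rw [Finset.disjoint_left]
        intro p h1 h2
        simp only [PS, mem_filter, mem_Icc, mem_Ioc] at h1 h2
        omega
    have hsmall : -(z : ℝ) ≤ ∑ p ∈ (Icc 1 z).filter Nat.Prime, fx p / (p : ℝ) := by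
      have h16 : ∀ p ∈ (Icc 1 z).filter Nat.Prime, (-1 : ℝ) ≤ fx p / (p : ℝ) := by
        intro p hp
        rw [mem_filter, mem_Icc] at hp
        exact (abs_le.1 (hb p hp.1.1)).1
      have h17 := Finset.card_nsmul_le_sum _ _ _ h16
      have h18 : ((Icc 1 z).filter Nat.Prime).card ≤ z := by
        refine (card_filter_le _ _).trans ?_
        simp
      have h19 : (((Icc 1 z).filter Nat.Prime).card : ℝ) ≤ z := by exact_mod_cast h18
      rw [nsmul_eq_mul] at h17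
      linarith
    have hfin : ∑ p ∈ PS z y, x4 true p / (p : ℝ) = ∑ p ∈ PS z y, fx p / (p : ℝ) := rfl
    rw [hfin]
    have := le_abs_self C
    linarith

end Pool.Agent.W216.RT.UB4
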